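import Pool.Agent.W809.ZQ.Stm

/-! Project ZQ, part DIAG: commuting unitary matrices are simultaneously diagonalisable. -/

set_option autoImplicit false

namespace Pool.Agent.W451.ZQ

open Pool.Agent.W809.ZQ Module

lemma exists_family {E : Type} [NormedAddCommGroup E] [InnerProductSpace ℂ E]
    [FiniteDimensional ℂ E] {χ : Type} [DecidableEq χ] (W : χ → Submodule ℂ E)
    (hof : OrthogonalFamily ℂ (fun c => W c) (fun c => (W c).subtypeₗᵢ))
    (htop : ⨆ c, W c = ⊤) :
    ∃ (κ : Type) (_ : Fintype κ) (b : OrthonormalBasis κ ℂ E), ∀ k, ∃ c, b k ∈ W c := by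
  have hon : Orthonormal ℂ (fun a : Σ c : χ, Fin (finrank ℂ (W c)) =>
      ((stdOrthonormalBasis ℂ (W a.1) a.2 : W a.1) : E)) :=
    hof.orthonormal_sigma_orthonormal (fun c => (stdOrthonormalBasis ℂ (W c)).orthonormal)
  have hfin : Finite (Σ c : χ, Fin (finrank ℂ (W c))) :=
    hon.linearIndependent.finite
  haveI := Fintype.ofFinite (Σ c : χ, Fin (finrank ℂ (W c)))
  have hsp : ⊤ ≤ Submodule.span ℂ (Set.range (fun a : Σ c : χ, Fin (finrank ℂ (W c)) =>
      ((stdOrthonormalBasis ℂ (W a.1) a.2 : W a.1) : E))) := by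
    rw [← htop]
    apply iSup_le
    intro c v hv
    have h1 := (stdOrthonormalBasis ℂ (W c)).sum_repr ⟨v, hv⟩
    have h2 := congrArg (fun w : W c => (w : E)) h1
    simp only [Submodule.coe_sum, Submodule.coe_smul] at h2
    rw [← h2]
    apply Submodule.sum_mem
    intro k _
    apply Submodule.smul_mem
    exact Submodule.subset_span ⟨⟨c, k⟩, rfl⟩
  refine ⟨_, this, OrthonormalBasis.mk hon hsp, ?_⟩
  intro k
  refine ⟨k.1, ?_⟩
  rw [OrthonormalBasis.coe_mk]
  exact Subtype.property _

lemma exists_eigen {E : Type} [NormedAddCommGroup E] [InnerProductSpace ℂ E]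
    [FiniteDimensional ℂ E] {ι : Type} (T : ι → Module.End ℂ E) (hT : ∀ i, (T i).IsSymmetric)
    (hC : Pairwise (Function.onFun Commute T)) :
    ∃ (κ : Type) (_ : Fintype κ) (b : OrthonormalBasis κ ℂ E), ∀ i k, ∃ μ : ℂ,
      T i (b k) = μ • b k := by
  classical
  obtain ⟨κ, hκ, b, hb⟩ := exists_family
    (fun γ : ι → ℂ => (⨅ j, Module.End.eigenspace (T j) (γ j) : Submodule ℂ E))
    (LinearMap.IsSymmetric.orthogonalFamily_iInf_eigenspaces hT)
    (LinearMap.IsSymmetric.iSup_iInf_eq_top_of_commute hT hC)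
  refine ⟨κ, hκ, b, ?_⟩
  intro i k
  obtain ⟨γ, hγ⟩ := hb k
  exact ⟨γ i, Module.End.mem_eigenspace_iff.mp ((Submodule.mem_iInf _).mp hγ i)⟩

lemma exists_basis (n : ℕ) {ι : Type} (M : ι → Mt n) (hM : ∀ i, (M i).IsHermitian)
    (hc : ∀ i j, M i * M j = M j * M i) :
    ∃ b : OrthonormalBasis (Fin n) ℂ (EuclideanSpace ℂ (Fin n)),
      ∀ i j, ∃ μ : ℂ, Matrix.toEuclideanLin (M i) (b j) = μ • b j := by
  obtain ⟨κ, hκ, b, hb⟩ := exists_eigen
    (fun i => (Matrix.toEuclideanLin (M i) : Module.End ℂ (EuclideanSpace ℂ (Fin n))))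
    (fun i => Matrix.isSymmetric_toEuclideanLin_iff.mpr (hM i)) (by
      intro i j _
      have h := hc i j
      show _ * _ = _ * _
      ext v : 1
      have h1 := congrArg (fun N : Mt n => N.mulVec v.ofLp) h
      simp only [← Matrix.mulVec_mulVec] at h1
      simp only [Module.End.mul_apply, Matrix.toLpLin_apply]
      rw [h1])
  have hcard : Fintype.card κ = n := by
    rw [← Module.finrank_eq_card_basis b.toBasis]
    simp
  refine ⟨b.reindex (Fintype.equivFinOfCardEq hcard), ?_⟩
  intro i j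
  rw [OrthonormalBasis.reindex_apply]
  exact hb i _

theorem diag : S_DIAG := by
  intro n A hA
  have hst : ∀ a : U n, star (a : Mt n) = ((a⁻¹ : U n) : Mt n) := fun a => rfl
  have hcm : ∀ a b : U n, a ∈ A → b ∈ A → (a : Mt n) * (b : Mt n) = (b : Mt n) * (a : Mt n) := by
    intro a b ha hb
    have := hA a ha b hb
    exact congrArg (fun z : U n => (z : Mt n)) this
  obtain ⟨b, hb⟩ := exists_basis n (ι := A × Bool)
    (fun p => if p.2 then (p.1 : U n).1 + star (p.1 : U n).1
      else Complex.I • ((p.1 : U n).1 - star (p.1 : U n).1)) (by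
      rintro ⟨⟨a, ha⟩, c⟩
      cases c
      · simp only [Bool.false_eq_true, if_false]
        show Matrix.conjTranspose _ = _
        rw [Matrix.conjTranspose_smul, Matrix.conjTranspose_sub, ← Matrix.star_eq_conjTranspose,
          ← Matrix.star_eq_conjTranspose, star_star]
        simp only [Complex.star_def, Complex.conj_I, neg_smul, ← smul_neg, neg_sub]
      · simp only [if_true]
        show Matrix.conjTranspose _ = _
        rw [Matrix.conjTranspose_add, ← Matrix.star_eq_conjTranspose,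
          ← Matrix.star_eq_conjTranspose, star_star, add_comm]) (by
      rintro ⟨⟨x, hx⟩, c⟩ ⟨⟨y, hy⟩, d⟩
      simp only
      have hx' := A.inv_mem hx
      have hy' := A.inv_mem hy
      have c1 : Commute (x : Mt n) (y : Mt n) := hcm x y hx hy
      have c2 : Commute (x : Mt n) (star (y : Mt n)) := by
        rw [hst]; exact hcm _ _ hx hy'
      have c3 : Commute (star (x : Mt n)) (y : Mt n) := by
        rw [hst]; exact hcm _ _ hx' hy
      have c4 : Commute (star (x : Mt n)) (star (y : Mt n)) := by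
        rw [hst, hst]; exact hcm _ _ hx' hy'
      show Commute _ _
      cases c <;> cases d <;> simp only [Bool.false_eq_true, if_false, if_true]
      · exact (((c1.sub_right c2).sub_left (c3.sub_right c4)).smul_left _).smul_right _
      · exact ((c1.add_right c2).sub_left (c3.add_right c4)).smul_left _
      · exact ((c1.sub_right c2).add_left (c3.sub_right c4)).smul_right _
      · exact (c1.add_right c2).add_left (c3.add_right c4))
  have hev : ∀ a : U n, a ∈ A → ∀ j, ∃ μ : ℂ, (a : Mt n).mulVec (b j).ofLp = μ • (b j).ofLp := by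
    intro a ha j
    obtain ⟨μ, hμ⟩ := hb (⟨a, ha⟩, true) j
    obtain ⟨ν, hν⟩ := hb (⟨a, ha⟩, false) j
    simp only [if_true, Bool.false_eq_true, if_false, Matrix.toLpLin_apply] at hμ hν
    have h1 := congrArg (fun z : EuclideanSpace ℂ (Fin n) => z.ofLp) hμ
    have h2 := congrArg (fun z : EuclideanSpace ℂ (Fin n) => z.ofLp) hν
    simp only [WithLp.ofLp_smul, Matrix.add_mulVec, Matrix.smul_mulVec, Matrix.sub_mulVec] at h1 h2
    refine ⟨(μ - Complex.I * ν) / 2, ?_⟩
    funext k
    have h3 := congrFun h1 k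
    have h4 := congrFun h2 k
    simp only [Pi.add_apply, Pi.smul_apply, Pi.sub_apply, smul_eq_mul] at h3 h4 ⊢
    have hI : Complex.I * Complex.I = -1 := Complex.I_mul_I
    linear_combination (1 / 2) * h3 - (Complex.I / 2) * h4 +
      ((1 / 2) * (((a : Mt n).mulVec (b j).ofLp) k - ((star (a : Mt n)).mulVec (b j).ofLp) k)) * hI
  let Q : U n := ⟨(EuclideanSpace.basisFun (Fin n) ℂ).toBasis.toMatrix b,
    OrthonormalBasis.toMatrix_orthonormalBasis_mem_unitary _ _⟩
  have hQ : ∀ k j, (Q : Mt n) k j = (b j).ofLp k := by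
    intro k j
    show (EuclideanSpace.basisFun (Fin n) ℂ).toBasis.toMatrix b k j = _
    simp [Basis.toMatrix_apply]
  refine ⟨Q⁻¹, ?_⟩
  intro a ha i j hij
  rw [inv_inv]
  obtain ⟨μ, hμ⟩ := hev a ha j
  have e1 : ((Q⁻¹ * a * Q : U n) : Mt n) = star (Q : Mt n) * ((a : Mt n) * (Q : Mt n)) := by
    rw [Submonoid.coe_mul, Submonoid.coe_mul, ← hst, mul_assoc]
  have e2 : ∀ k, ((a : Mt n) * (Q : Mt n)) k j = μ * (Q : Mt n) k j := by
    intro k
    have h := congrFun hμ k
    rw [Matrix.mul_apply]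
    simp only [Matrix.mulVec, dotProduct, Pi.smul_apply, smul_eq_mul] at h
    rw [hQ, ← h]
    refine Finset.sum_congr rfl fun l _ => ?_
    rw [hQ]
  rw [e1, Matrix.mul_apply]
  simp only [e2]
  have e3 : (star (Q : Mt n) * (Q : Mt n)) i j = 0 := by
    have h : star (Q : Mt n) * (Q : Mt n) = 1 := Matrix.mem_unitaryGroup_iff'.mp Q.2
    rw [h, Matrix.one_apply_ne hij]
  rw [Matrix.mul_apply] at e3
  calc ∑ k, star (Q : Mt n) i k * (μ * (Q : Mt n) k j) =
        μ * ∑ k, star (Q : Mt n) i k * (Q : Mt n) k j := by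
        rw [Finset.mul_sum]
        refine Finset.sum_congr rfl fun k _ => ?_
        ring
    _ = 0 := by rw [e3, mul_zero]

end Pool.Agent.W451.ZQ
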